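import Pool.Agent.Y501.SY.Bridge
import Pool.Agent.Y501.SY.PubU

/-!
The two level theorem of helper501's library in an open set of cohomology classes, and in the
homotopy class of the forms taming `J`.
-/

set_option autoImplicit false

open Set Filter Topology MeasureTheory
open scoped Manifold ContDiff

noncomputable section

namespace Pool.Agent.X24.SYC

open Pool.Agent.Y501 Pool.Agent.Y501.SYP

section

variable {V : Type} [NormedAddCommGroup V] [NormedSpace ℝ V]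
  {X : Type} [TopologicalSpace X] [ChartedSpace V X]

/-- the form `σ + t ζ + ∑ i, s i κ i` -/
def combo {k : ℕ} (σ ζ : Form V X 2) (κ : Fin k → Form V X 2) (t : ℝ) (s : Fin k → ℝ) :
    Form V X 2 := fun x => σ x + t • ζ x + ∑ i, s i • κ i x

end

section

variable {d : ℕ} {X : Type} [TopologicalSpace X] [ChartedSpace (SY.E d) X]

theorem closed_sum {k : ℕ} (s : Fin k → ℝ) (κ : Fin k → SY.Form d X 2)
    (hκ : ∀ i, SY.IsSmooth (κ i)) (hκc : ∀ i, SY.IsClosedForm (κ i)) (T : Finset (Fin k)) :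
    SY.IsSmooth (∑ i ∈ T, s i • κ i) ∧ SY.IsClosedForm (∑ i ∈ T, s i • κ i) := by
  classical
  induction T using Finset.induction_on with
  | empty =>
    rw [Finset.sum_empty]
    exact ⟨SY.IsSmooth.zero, SY.IsD.zero⟩
  | insert a T ha ih =>
    rw [Finset.sum_insert ha]
    have e1 : SY.IsSmooth (s a • κ a) := SY.IsSmooth.smul (hκ a) (s a)
    have e2 : SY.IsD (s a • κ a) (s a • 0) := SY.IsD.smul (hκc a) (s a)
    refine ⟨e1.add ih.1, ?_⟩
    have e3 := SY.IsD.add e2 ih.2 e1 ih.1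
    rw [smul_zero, add_zero] at e3
    exact e3

end

section

variable {d : ℕ} {X : Type} [TopologicalSpace X] [ChartedSpace (ES d) X]

attribute [local instance] cs mf

theorem seg_nondeg {J : End (ES d) X} {τ w : Form (ES d) X 2} (hτ : ∀ x, TamesAt τ J x)
    (hw : ∀ x, TamesAt w J x) (t : ℝ) (h0 : 0 ≤ t) (h1 : t ≤ 1) : Nondeg (seg τ w t) := by
  intro x v hv
  by_contra hne
  have h2 : 0 < τ x ![v, J x v] := hτ x v hne
  have h3 : 0 < w x ![v, J x v] := hw x v hne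
  have h4 : (1 - t) * τ x ![v, J x v] + t * w x ![v, J x v] = 0 := hv (J x v)
  rcases lt_or_eq_of_le h0 with h | h
  · have := mul_pos h h3
    have h5 : 0 ≤ (1 - t) * τ x ![v, J x v] := mul_nonneg (by linarith) h2.le
    linarith
  · rw [← h] at h4
    linarith

theorem twoLevelClass {m k : ℕ} {Y : Type} [TopologicalSpace Y] [ChartedSpace (ES m) Y]
    [IsManifold 𝓘(ℝ, ES d) ∞ X] [CompactSpace X] [T2Space X]
    [IsManifold 𝓘(ℝ, ES m) ∞ Y] [T2Space Y] [SigmaCompactSpace Y]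
    (J : End (ES d) X) (hJ : IsAlmostComplex J)
    (f : X → Y) (hf : ContMDiff 𝓘(ℝ, ES d) 𝓘(ℝ, ES m) ∞ f)
    (σ ζ : Form (ES d) X 2) (hσ : IsSmooth σ) (hσc : IsClosedForm σ)
    (hζ : IsSmooth ζ) (hζc : IsClosedForm ζ)
    (hpos : ∀ (x : X) (v : TangentSpace 𝓘(ℝ, ES d) x), 0 ≤ qd σ J x v)
    (hker : ∀ (x : X) (v : TangentSpace 𝓘(ℝ, ES d) x), qd σ J x v = 0 →
      mfderiv 𝓘(ℝ, ES d) 𝓘(ℝ, ES m) f x v = 0)
    (hfib : ∀ y : Y, GoodFibre σ ζ J (f ⁻¹' {y}))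
    (κ : Fin k → Form (ES d) X 2) (hκ : ∀ i, IsSmooth (κ i)) (hκc : ∀ i, IsClosedForm (κ i)) :
    ∃ t₀ : ℝ, 0 < t₀ ∧ ∀ t : ℝ, 0 < t → t ≤ t₀ → ∃ ε : ℝ, 0 < ε ∧
      ∀ s : Fin k → ℝ, (∀ i, |s i| ≤ ε) →
        ∃ (α : Form (ES d) X 1) (ρ : Form (ES d) X 2), IsSmooth α ∧ IsSmooth ρ ∧ IsD α ρ ∧
          IsTamingSymplectic (addF (combo σ ζ κ t s) ρ) J ∧
          ∀ τ : Form (ES d) X 2, (∀ x, TamesAt τ J x) → ∀ u : ℝ, 0 ≤ u → u ≤ 1 →
            Nondeg (seg τ (addF (combo σ ζ κ t s) ρ) u) := by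
  obtain ⟨α, ρ, h1, h2, h3, t₀, ht₀, h4⟩ :=
    twoLevel J hJ f hf σ ζ hσ hσc hζ hζc hpos hker hfib
  refine ⟨t₀, ht₀, fun t ht0 ht1 => ?_⟩
  have hT := h4 t ht0 ht1
  obtain ⟨ε, hε, hall⟩ := SY.unif (X := X) isCompact_univ
    (fun ε y => ∀ s : Fin k → ℝ, (∀ i, |s i| ≤ ε) →
      SY.TamesAt (d := d) (X := X) (comb σ t (addF ζ ρ) + ∑ i, s i • κ i) J y)
    (fun ε ε' y h hp s hs => hp s fun i => (hs i).trans h)
    (fun x _ => Pool.Agent.Y455.SY.t_PERT d X J (ac_of J hJ) (Fin k) (comb σ t (addF ζ ρ)) κ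
      ((smooth_iff _).1 hT.smooth) (fun i => (smooth_iff _).1 (hκ i)) x (hT.tames x))
  refine ⟨ε, hε, fun s hs => ?_⟩
  have heq : addF (combo σ ζ κ t s) (t • ρ) = comb σ t (addF ζ ρ) + ∑ i, s i • κ i := by
    funext x
    simp only [addF, combo, comb, Pi.add_apply, Pi.smul_apply, Finset.sum_apply, smul_add]
    abel
  have hsm : SY.IsSmooth (d := d) (X := X) (∑ i, s i • κ i) :=
    SY.IsSmooth.sum Finset.univ fun i _ => SY.IsSmooth.smul ((smooth_iff _).1 (hκ i)) (s i)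
  have hcl : SY.IsClosedForm (d := d) (X := X) (∑ i, s i • κ i) :=
    (closed_sum s κ (fun i => (smooth_iff _).1 (hκ i)) (fun i => (closed_iff _).1 (hκc i))
      Finset.univ).2
  have htame : ∀ x, TamesAt (addF (combo σ ζ κ t s) (t • ρ)) J x := by
    intro x
    rw [heq]
    exact hall x (mem_univ x) s hs
  refine ⟨t • α, t • ρ, ?_, ?_, ?_, ?_, ?_⟩
  · exact (smooth_iff _).2 (SY.IsSmooth.smul ((smooth_iff _).1 h1) t)
  · exact (smooth_iff _).2 (SY.IsSmooth.smul ((smooth_iff _).1 h2) t)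
  · exact (isD_iff _ _).2 (SY.IsD.smul ((isD_iff _ _).1 h3) t)
  · refine symp_of ?_ ?_ htame
    · rw [heq]
      exact (smooth_iff _).2 (SY.IsSmooth.add ((smooth_iff _).1 hT.smooth) hsm)
    · rw [heq]
      have e3 := SY.IsD.add ((closed_iff _).1 hT.closed) hcl ((smooth_iff _).1 hT.smooth) hsm
      rw [add_zero] at e3
      exact (closed_iff _).2 e3
  · intro τ hτ u hu0 hu1
    exact seg_nondeg hτ htame u hu0 hu1

end

end Pool.Agent.X24.SYC
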